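import Mathlib

open Set Filter Topology
open scoped RealInnerProductSpace

namespace Pool.Agent.Results.MP_c77635_an.Counter

/-- real `ℓ₂` -/
abbrev H : Type := lp (fun _ : ℕ => ℝ) 2

/-- the `(n+1)`-th term of the non-increasing rearrangement of `|a|` -/
noncomputable def rearr (a : ℕ → ℝ) (n : ℕ) : ℝ := sInf {t | 0 ≤ t ∧ {k | t < |a k|}.encard ≤ n}

/-- the Lorentz quasi-norm `‖a‖_{2,s}` (used for finitely supported `a`) -/
noncomputable def lorentz (s : ℝ) (a : ℕ → ℝ) : ℝ :=
  (∑' n, rearr a n ^ s * ((n : ℝ) + 1) ^ (s / 2 - 1)) ^ (1 / s)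

/-- the fundamental function -/
noncomputable def phi (x : ℕ → H) (m : ℕ) : ℝ :=
  sSup {r | ∃ (A : Finset ℕ) (ε : ℕ → ℝ), A.card ≤ m ∧ (∀ n, |ε n| = 1) ∧ r = ‖∑ n ∈ A, ε n • x n‖}

/-- `x` is a basis of `ℓ₂` with biorthogonal functionals `⟪y n, ·⟫` -/
def IsBasis (x y : ℕ → H) : Prop :=
  Dense (Submodule.span ℝ (range x) : Set H) ∧ (∀ n k, ⟪y n, x k⟫ = if n = k then 1 else 0) ∧
    (∀ f, (∀ n, ⟪y n, f⟫ = 0) → f = 0) ∧ ∃ C, ∀ n, ‖x n‖ ≤ C ∧ ‖y n‖ ≤ C

lemma sum_le (B : Finset ℕ) : ∑ i ∈ B, 1 / √(i + 1) ≤ 2 * √B.card := by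
  induction B using Finset.induction_on_max with
  | empty => simp
  | insert a B h ih =>
    have n : a ∉ B := fun k => lt_irrefl _ (h a k)
    have c : (B.card : ℝ) ≤ a := by
      exact_mod_cast (Finset.card_le_card fun i hi => Finset.mem_range.2 (h i hi)).trans_eq
        (Finset.card_range a)
    rw [Finset.sum_insert n, Finset.card_insert_of_notMem n, Nat.cast_succ]
    have p : 0 < √(B.card + 1 : ℝ) := by positivity
    have : 1 / √(a + 1 : ℝ) ≤ 2 * √(B.card + 1 : ℝ) - 2 * √B.card :=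
      (one_div_le_one_div_of_le p (Real.sqrt_le_sqrt (by linarith))).trans (by
        rw [div_le_iff₀ p]
        nlinarith [Real.sq_sqrt (by positivity : (0:ℝ) ≤ B.card + 1),
          Real.sq_sqrt (by positivity : (0:ℝ) ≤ B.card), sq_nonneg (√(B.card + 1 : ℝ) - √B.card)])
    linarith

/-- unit vectors -/
noncomputable def e (n : ℕ) : H := lp.single 2 n 1

lemma ie (n : ℕ) (f : H) : ⟪e n, f⟫ = f n := by simp [e, lp.inner_single_left]

lemma oe : Orthonormal ℝ e := orthonormal_iff_ite.2 fun i j => by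
  rw [ie]; by_cases h : i = j <;> simp [e, h]

lemma nsq {W : ℕ → H} (o : Orthonormal ℝ W) (A : Finset ℕ) (t : ℕ → ℝ) :
    ‖∑ n ∈ A, t n • W n‖ ^ 2 = ∑ n ∈ A, t n ^ 2 := by
  rw [← real_inner_self_eq_norm_sq, o.inner_sum]; simp [sq]

/-- block of an index -/
def J (n : ℕ) : ℕ := (n / 2).unpair.1

/-- position of an index in its block -/
def I (n : ℕ) : ℕ := (n / 2).unpair.2

/-- weights -/
noncomputable def b (r n : ℕ) : ℝ := if n % 2 = r ∧ I n ≤ J n then 1 / √(I n + 1) else 0

/-- index from block, position and parity -/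
def P (r j i : ℕ) : ℕ := 2 * Nat.pair j i + r

lemma PJ {r : ℕ} (h : r < 2) (j i : ℕ) :
    J (P r j i) = j ∧ I (P r j i) = i ∧ P r j i % 2 = r := by
  have : P r j i / 2 = Nat.pair j i := by unfold P; omega
  rw [J, I, this, Nat.unpair_pair]
  exact ⟨rfl, rfl, by unfold P; omega⟩

lemma JP (n : ℕ) : P (n % 2) (J n) (I n) = n := by
  rw [P, J, I, Nat.pair_unpair]; omega

/-- harmonic sums -/
noncomputable def h (j : ℕ) : ℝ := ∑ i ∈ Finset.range (j + 1), 1 / (i + 1 : ℝ)

lemma h0 (j : ℕ) : 0 < h j := Finset.sum_pos (fun _ _ => by positivity) Finset.nonempty_range_add_one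

/-- block vectors -/
noncomputable def W (r j : ℕ) : H :=
  ∑ i ∈ Finset.range (j + 1), (1 / √(i + 1) / √(h j)) • e (P r j i)

lemma iW {r : ℕ} (hr : r < 2) (n j : ℕ) :
    ⟪e n, W r j⟫ = if J n = j then b r n / √(h j) else 0 := by
  simp only [W, inner_sum, inner_smul_right, orthonormal_iff_ite.1 oe]
  by_cases k : J n = j ∧ n % 2 = r ∧ I n ≤ J n
  · obtain ⟨rfl, rfl, k⟩ := k
    rw [Finset.sum_eq_single (I n) (fun i _ hi => by
      rw [if_neg fun e => hi (by rw [e, (PJ hr _ _).2.1]), mul_zero])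
      fun k' => (k' (Finset.mem_range.2 (Nat.lt_succ_of_le k))).elim]
    simp [JP, b, k]
  · rw [Finset.sum_eq_zero fun i hi => by
      rw [if_neg, mul_zero]
      rintro rfl
      obtain ⟨a, c, d⟩ := PJ hr j i
      exact k ⟨a, d, by rw [a, c]; exact Nat.lt_succ_iff.1 (Finset.mem_range.1 hi)⟩]
    split_ifs with a
    · rw [b, if_neg fun c => k ⟨a, c⟩, zero_div]
    · rfl

lemma bP {r : ℕ} (hr : r < 2) (s : ℕ) {j i : ℕ} (hi : i ∈ Finset.range (j + 1)) :
    b s (P r j i) = if r = s then 1 / √(i + 1) else 0 := by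
  obtain ⟨a, c, d⟩ := PJ hr j i
  rw [b, a, c, d]
  simp [Nat.lt_succ_iff.1 (Finset.mem_range.1 hi)]

lemma sq' (i : ℕ) : 1 / √(i + 1 : ℝ) * (1 / √(i + 1 : ℝ)) = 1 / (i + 1 : ℝ) := by
  rw [div_mul_div_comm, Real.mul_self_sqrt (by positivity), mul_one]

lemma WW {r s : ℕ} (hr : r < 2) (hs : s < 2) (j k : ℕ) :
    ⟪W r j, W s k⟫ = if j = k ∧ r = s then 1 else 0 := by
  rw [W, sum_inner, Finset.sum_congr rfl fun i hi => by
    rw [real_inner_smul_left, iW hs, (PJ hr _ _).1, bP hr s hi]]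
  by_cases a : j = k <;> by_cases c : r = s <;> simp only [a, c, if_true, if_false, and_self,
    and_false, false_and, zero_div, mul_zero, Finset.sum_const_zero]
  simp only [div_mul_div_comm _ (√(h k)), sq', ← Finset.sum_div, Real.mul_self_sqrt (h0 k).le]
  exact div_self (h0 k).ne'

lemma oW {r : ℕ} (hr : r < 2) : Orthonormal ℝ (W r) :=
  orthonormal_iff_ite.2 fun j k => by simp [WW hr hr]

lemma dem {r : ℕ} (hr : r < 2) (s : ℕ) (σ : ℝ) (hσ : |σ| = 1) (A : Finset ℕ) (ε : ℕ → ℝ)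
    (hε : ∀ n, |ε n| = 1) :
    ‖∑ n ∈ A, ε n • (e n + (σ * b s n) • W r (J n))‖ ≤ 3 * √A.card := by
  simp only [smul_add, Finset.sum_add_distrib, smul_smul]
  have h1 : ‖∑ n ∈ A, ε n • e n‖ ≤ √A.card := Real.le_sqrt_of_sq_le (by
    rw [nsq oe, Finset.sum_congr rfl fun n _ => by rw [← sq_abs, hε]]; simp)
  have h2 : ‖∑ n ∈ A, (ε n * (σ * b s n)) • W r (J n)‖ ≤ 2 * √A.card := by
    rw [← Finset.sum_fiberwise_of_maps_to (fun n hn => Finset.mem_image_of_mem J hn),
      Finset.sum_congr rfl fun j _ => (Finset.sum_congr rfl fun n hn => by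
        rw [(Finset.mem_filter.1 hn).2]).trans (Finset.sum_smul ..).symm,
      ← sq_le_sq₀ (norm_nonneg _) (by positivity), nsq (oW hr), mul_pow,
      Real.sq_sqrt (by positivity), Finset.card_eq_sum_card_image J, Nat.cast_sum, Finset.mul_sum]
    refine Finset.sum_le_sum fun j _ => ?_
    rw [← Real.sq_sqrt (Nat.cast_nonneg _), ← mul_pow, ← sq_abs]
    refine pow_le_pow_left₀ (abs_nonneg _) ((Finset.abs_sum_le_sum_abs _ _).trans ?_) 2
    have inj : InjOn I ((A.filter (J · = j)).filter (· % 2 = s)) := fun m hm n hn e => by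
      obtain ⟨a, c⟩ := Finset.mem_filter.1 hm
      obtain ⟨a', c'⟩ := Finset.mem_filter.1 hn
      rw [← JP m, ← JP n, c, c', e, (Finset.mem_filter.1 a).2, (Finset.mem_filter.1 a').2]
    have := sum_le (((A.filter (J · = j)).filter (· % 2 = s)).image I)
    rw [Finset.sum_image inj, Finset.sum_filter] at this
    refine (Finset.sum_le_sum fun n _ => ?_).trans (this.trans (mul_le_mul_of_nonneg_left
      (Real.sqrt_le_sqrt (Nat.cast_le.2 (Finset.card_image_le.trans (Finset.card_filter_le _ _))))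
      zero_le_two))
    rw [abs_mul, abs_mul, hε, hσ, one_mul, one_mul, b]
    split_ifs with a c c
    · exact (abs_of_nonneg (by positivity)).le
    · exact (c a.1).elim
    · rw [abs_zero]; positivity
    · simp
  linarith [norm_add_le (∑ n ∈ A, ε n • e n) (∑ n ∈ A, (ε n * (σ * b s n)) • W r (J n))]

/-- There is a bidemocratic basis of real `ℓ₂` for which the embedding of `ℓ_{2,q}` into `ℓ₂` fails
for every `q > 1`. -/
theorem result : ∃ x y : ℕ → H, IsBasis x y ∧ (∃ C, ∀ m : ℕ, 1 ≤ m → phi x m * phi y m / m ≤ C) ∧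
    ∀ q : ℝ, 1 < q → ¬ ∃ C, ∀ a : ℕ →₀ ℝ, ‖∑ n ∈ a.support, a n • x n‖ ≤ C * lorentz q a := by
  have d1 := dem two_pos 1 1 abs_one
  have d2 := dem one_lt_two 0 (-1) (by simp)
  have ph : ∀ z : ℕ → H, (∀ (A : Finset ℕ) (ε : ℕ → ℝ), (∀ n, |ε n| = 1) →
      ‖∑ n ∈ A, ε n • z n‖ ≤ 3 * √A.card) → ∀ m : ℕ, 0 ≤ phi z m ∧ phi z m ≤ 3 * √m := fun z k m =>
    ⟨Real.sSup_nonneg (by rintro _ ⟨_, _, -, -, rfl⟩; positivity), Real.sSup_le (by
      rintro _ ⟨A, ε, a, c, rfl⟩
      exact (k A ε c).trans (by gcongr)) (by positivity)⟩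
  have b0 : ∀ {r n}, n % 2 ≠ r → b r n = 0 := fun a => if_neg fun c => a c.1
  refine ⟨fun n => e n + (1 * b 1 n) • W 0 (J n), fun n => e n + (-1 * b 0 n) • W 1 (J n),
    ⟨?_, fun n k => ?_, fun f hf => ?_, 3, fun n => ⟨?_, ?_⟩⟩, ⟨9, fun m hm => ?_⟩,
    fun q hq ⟨C, hC⟩ => ?_⟩
  · set S := Submodule.span ℝ (range fun n => e n + (1 * b 1 n) • W 0 (J n))
    have k : ∀ n, e n + (1 * b 1 n) • W 0 (J n) ∈ S := fun n => Submodule.subset_span ⟨n, rfl⟩
    have k2 : ∀ n, e n ∈ S := fun n => (S.add_mem_iff_left (S.smul_mem _ (S.sum_mem fun i _ =>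
      S.smul_mem _ (by simpa [b0 (r := 1), (PJ two_pos _ _).2.2] using k (P 0 (J n) i))))).1 (k n)
    exact fun f => mem_closure_of_tendsto (lp.hasSum_single (by norm_num) f)
      (Eventually.of_forall fun s => S.sum_mem fun n _ => by
        simpa [e, ← lp.single_smul] using S.smul_mem (f n) (k2 n))
  · simp only [inner_add_left, inner_add_right, real_inner_smul_left, real_inner_smul_right,
      real_inner_comm (e _) (W _ _), iW two_pos, iW one_lt_two, WW one_lt_two two_pos,
      orthonormal_iff_ite.1 oe]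
    by_cases a : J n = J k
    · simp only [a, if_true]; simp; ring
    · simp [a, Ne.symm a]
  · have k : ∀ n, n % 2 = 1 → ⟪e n, f⟫ = 0 := fun n a => by
      simpa [b0 (r := 0) (n := n) (by omega)] using hf n
    refine lp.ext (funext fun n => ?_)
    have := hf n
    rw [inner_add_left, real_inner_smul_left, W, sum_inner, Finset.sum_eq_zero fun i _ => by
      rw [real_inner_smul_left, k _ (PJ one_lt_two _ _).2.2, mul_zero], mul_zero, add_zero,
      ie] at this
    exact this
  · simpa using d1 {n} 1 (by simp)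
  · simpa using d2 {n} 1 (by simp)
  · have p : (0:ℝ) < m := by exact_mod_cast hm
    rw [div_le_iff₀ p]
    have := mul_le_mul (ph _ d1 m).2 (ph _ d2 m).2 (ph _ d2 m).1 (by positivity)
    nlinarith [Real.mul_self_sqrt p.le]
  have q0 : 0 < q := by linarith
  have key : ∀ j, h j ≤ |C| * h j ^ (1 / q) := fun j => by
    have inj : Function.Injective (P 1 j) := fun i k c => by
      rw [← (PJ one_lt_two j i).2.1, c, (PJ one_lt_two j k).2.1]
    let a : ℕ →₀ ℝ := Finsupp.onFinset ((Finset.range (j + 1)).image (P 1 j))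
      (fun n => if J n = j then b 1 n else 0) fun n hn => by
        by_contra c
        refine hn (ite_eq_right_iff.2 fun d => if_neg fun g => c (Finset.mem_image.2
          ⟨I n, Finset.mem_range.2 (by omega), by rw [← d, ← g.1, JP]⟩))
    have aP : ∀ i ∈ Finset.range (j + 1), a (P 1 j i) = 1 / √(i + 1) := fun i hi =>
      (if_pos (PJ one_lt_two j i).1).trans ((bP one_lt_two 1 hi).trans (if_pos rfl))
    have l : h j ≤ ‖∑ n ∈ a.support, a n • (e n + (1 * b 1 n) • W 0 (J n))‖ := by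
      have := real_inner_le_norm (W 0 j)
        (∑ n ∈ a.support, a n • (e n + (1 * b 1 n) • W 0 (J n)))
      rw [(oW two_pos).1, one_mul, Finset.sum_subset Finsupp.support_onFinset_subset fun n _ c => by
        rw [Finsupp.notMem_support_iff.1 c, zero_smul], Finset.sum_image inj.injOn, inner_sum,
        Finset.sum_congr rfl (g := fun i : ℕ => 1 / (i + 1 : ℝ)) fun i hi => by
          rw [real_inner_smul_right, inner_add_right, real_inner_smul_right, real_inner_comm,
            iW two_pos, (PJ one_lt_two _ _).1, WW two_pos two_pos, bP one_lt_two _ hi,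
            bP one_lt_two _ hi, aP i hi, ← sq']
          simp] at this
      rwa [Finset.sum_subset Finsupp.support_onFinset_subset fun n _ c => by
        rw [Finsupp.notMem_support_iff.1 c, zero_smul], Finset.sum_image inj.injOn]
    have r0 : ∀ n, 0 ≤ rearr a n := fun n => Real.sInf_nonneg fun _ k => k.1
    have r1 : ∀ (n m : ℕ) (t : ℝ), 0 ≤ t → m ≤ n → (∀ i ≤ j, t < 1 / √(i + 1) → i < m) →
        rearr a n ≤ t := fun n m t t0 hm k => csInf_le ⟨0, fun _ k => k.1⟩ ⟨t0, by
      refine le_trans (encard_le_encard (t := P 1 j '' (Finset.range m)) fun n hn => ?_)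
        ((encard_image_le _ _).trans (by rw [encard_coe_eq_coe_finsetCard]; simpa using hm))
      have hn : t < |a n| := hn
      obtain ⟨i, hi, rfl⟩ := Finset.mem_image.1 (Finsupp.support_onFinset_subset
        (Finsupp.mem_support_iff.2 (abs_pos.1 (t0.trans_lt hn))))
      rw [aP i hi, abs_of_nonneg (by positivity)] at hn
      exact ⟨i, Finset.mem_coe.2 (Finset.mem_range.2
        (k i (Nat.lt_succ_iff.1 (Finset.mem_range.1 hi)) hn)), rfl⟩⟩
    have u : lorentz q a ≤ h j ^ (1 / q) := by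
      rw [lorentz, tsum_eq_sum (s := Finset.range (j + 1)) fun n hn => by
        rw [le_antisymm (r1 n (j + 1) 0 le_rfl (not_lt.1 (mt Finset.mem_range.2 hn))
          fun i hi _ => Nat.lt_succ_of_le hi) (r0 n), Real.zero_rpow q0.ne', zero_mul]]
      refine Real.rpow_le_rpow (Finset.sum_nonneg fun n _ => by have := r0 n; positivity)
        (Finset.sum_le_sum fun n _ => ?_) (by positivity)
      have p : (0:ℝ) < n + 1 := by positivity
      have := Real.rpow_le_rpow (r0 n) (r1 n n (1 / √(n + 1)) (by positivity) le_rfl fun i _ c => by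
        have := (Real.sqrt_lt_sqrt_iff (by positivity)).1 (lt_of_one_div_lt_one_div
          (by positivity) c)
        exact_mod_cast lt_of_add_lt_add_right this) q0.le
      refine (mul_le_mul_of_nonneg_right this (by positivity)).trans_eq ?_
      rw [Real.sqrt_eq_rpow, one_div, ← Real.rpow_neg p.le, ← Real.rpow_mul p.le,
        ← Real.rpow_add p, one_div (n + 1 : ℝ), ← Real.rpow_neg_one]
      congr 1; ring
    exact l.trans ((hC a).trans (mul_le_mul (le_abs_self C) u
      (Real.rpow_nonneg (tsum_nonneg fun n => by have := r0 n; positivity) _) (abs_nonneg C)))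
  have t : Tendsto (fun j => h j ^ (1 - 1 / q)) atTop atTop :=
    (tendsto_rpow_atTop (sub_pos.2 ((div_lt_one q0).2 hq))).comp
      (Real.tendsto_sum_range_one_div_nat_succ_atTop.comp (tendsto_add_atTop_nat 1))
  obtain ⟨j, hj⟩ := (t.eventually_gt_atTop |C|).exists
  rw [Real.rpow_sub (h0 j), Real.rpow_one, lt_div_iff₀ (Real.rpow_pos_of_pos (h0 j) _)] at hj
  exact hj.not_ge (key j)

end Pool.Agent.Results.MP_c77635_an.Counter
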